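import Mathlib
import Pool.Agent.Helper74.Iso3.Defs3
import Pool.Agent.Helper74.Iso3.LinAlg

/-!
# Module M4 of `MP_41af65_gt`: the conormal in a boundary box
-/

set_option linter.unusedSectionVars false

namespace Pool.Agent.Helper74.Iso3

open Module InnerProductSpace MeasureTheory Set Filter Topology
open Pool.Agent.Helper74.Iso Pool.Agent.Helper74.Iso2
open scoped ContDiff ENNReal

variable {E : Type*} [NormedAddCommGroup E] [InnerProductSpace ℝ E] [FiniteDimensional ℝ E]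

/-- basic facts about `cn u v` -/
lemma cn_props {u v : E} (h : LinearIndependent ℝ ![u, v]) :
    ‖cn u v‖ = 1 ∧ cn u v ∈ Submodule.span ℝ {u, v} ∧ ⟪cn u v, v⟫_ℝ = 0 ∧
      ⟪cn u v, u⟫_ℝ < 0 ∧ ∀ η ∈ Submodule.span ℝ {u, v}, ⟪η, v⟫_ℝ = 0 →
        ∃ c : ℝ, η = c • cn u v := by
  obtain ⟨q₁, q₂, h11, h22, h12, hv, hu, hcn⟩ := exists_frame_pair h
  have hv0 : 0 < ‖v‖ := norm_pos_iff.2 (ne_zero_right h)
  have hj : 0 < jac u v := jac_pos h
  have h21 : ⟪q₂, q₁⟫_ℝ = 0 := by rw [real_inner_comm]; exact h12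
  refine ⟨?_, ?_, ?_, ?_, ?_⟩
  · rw [hcn, norm_neg]
    have : ‖q₁‖ ^ 2 = 1 := by rw [← real_inner_self_eq_norm_sq]; exact h11
    nlinarith [norm_nonneg q₁]
  · rw [hcn, span_frame h hv hu]
    exact Submodule.neg_mem _ (Submodule.subset_span (by simp))
  · rw [hcn, hv, inner_neg_left, inner_smul_right, h12]
    simp
  · have e : ⟪cn u v, u⟫_ℝ = -(jac u v / ‖v‖) := by
      conv_lhs => rw [hcn, hu]
      rw [inner_neg_left, inner_add_right, inner_smul_right, inner_smul_right, h12, h11]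
      ring
    rw [e]
    have := div_pos hj hv0
    linarith
  · intro η hη h0
    rw [span_frame h hv hu, Submodule.mem_span_pair] at hη
    obtain ⟨a, b, rfl⟩ := hη
    rw [hv, inner_smul_right, inner_add_left, inner_smul_left, inner_smul_left, h12, h22] at h0
    simp only [conj_trivial, mul_zero, mul_one, zero_add, mul_eq_zero] at h0
    have hb : b = 0 := by
      rcases h0 with h0 | h0
      · exact absurd h0 hv0.ne'
      · exact h0
    refine ⟨-a, ?_⟩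
    rw [hcn, hb]
    simp

lemma BdBox.mem_box {M B N : Set E} {P : ℝ × ℝ → E} {Ω : Set (ℝ × ℝ)} {r : ℝ}
    {f : E → ℝ} (hb : BdBox M B N P Ω r f) {t : ℝ} (ht : t ∈ Icc (-r) r) :
    ((0 : ℝ), t) ∈ Icc 0 r ×ˢ Icc (-r) r := ⟨⟨le_refl 0, hb.pos.le⟩, ht⟩

lemma BdBox.linInd {M B N : Set E} {P : ℝ × ℝ → E} {Ω : Set (ℝ × ℝ)} {r : ℝ}
    {f : E → ℝ} (hb : BdBox M B N P Ω r f) {t : ℝ} (ht : t ∈ Icc (-r) r) :
    LinearIndependent ℝ ![d1 P (0, t), d2 P (0, t)] :=
  linearIndependent_pair (hb.imm _ (hb.sub (hb.mem_box ht)))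

theorem BdBox.isOuterConormal_cn {M B N : Set E} {P : ℝ × ℝ → E} {Ω : Set (ℝ × ℝ)} {r : ℝ}
    {f : E → ℝ} (hb : BdBox M B N P Ω r f) {t : ℝ} (ht : t ∈ Ioo (-r) r) :
    IsOuterConormal M (P (0, t)) (cn (d1 P (0, t)) (d2 P (0, t))) := by
  have ht' : t ∈ Icc (-r) r := Ioo_subset_Icc_self ht
  obtain ⟨h1, h2, h3, h4, -⟩ := cn_props (hb.linInd ht')
  refine ⟨?_, h1, ?_⟩
  · rw [hb.tangent _ (hb.mem_box ht'), range_eq_span_pair]
    exact h2
  · intro w hw
    obtain ⟨α, β, hα, rfl⟩ := hb.cone_sub t ht w hw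
    rw [inner_add_right, inner_smul_right, inner_smul_right, h3]
    nlinarith

theorem BdBox.unique_outerConormal {M B N : Set E} {P : ℝ × ℝ → E} {Ω : Set (ℝ × ℝ)} {r : ℝ}
    {f : E → ℝ} (hb : BdBox M B N P Ω r f) {t : ℝ} (ht : t ∈ Ioo (-r) r) {η : E}
    (hη : IsOuterConormal M (P (0, t)) η) : η = cn (d1 P (0, t)) (d2 P (0, t)) := by
  have ht' : t ∈ Icc (-r) r := Ioo_subset_Icc_self ht
  obtain ⟨h1, h2, h3, h4, h5⟩ := cn_props (hb.linInd ht')
  obtain ⟨g1, g2, g3⟩ := hη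
  rw [hb.tangent _ (hb.mem_box ht'), range_eq_span_pair] at g1
  have e1 := g3 _ (hb.cone_sup t ht 0 1 le_rfl)
  have e2 := g3 _ (hb.cone_sup t ht 0 (-1) le_rfl)
  have e3 := g3 _ (hb.cone_sup t ht 1 0 zero_le_one)
  simp only [zero_smul, one_smul, zero_add, add_zero, neg_smul, inner_neg_right] at e1 e2 e3
  obtain ⟨c, hc⟩ := h5 η g1 (le_antisymm e1 (by linarith))
  have hc0 : 0 ≤ c := by
    rw [hc, inner_smul_left] at e3
    simp only [conj_trivial] at e3
    by_contra hcon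
    have := mul_pos_of_neg_of_neg (not_le.1 hcon) h4
    linarith
  have hc1 : |c| = 1 := by
    rw [hc, norm_smul, h1, mul_one] at g2
    simpa using g2
  rw [abs_of_nonneg hc0] at hc1
  rw [hc, hc1, one_smul]

theorem BdBox.conormal_eq {M B N : Set E} {P : ℝ × ℝ → E} {Ω : Set (ℝ × ℝ)} {r : ℝ} {f : E → ℝ}
    (hb : BdBox M B N P Ω r f) {t : ℝ} (ht : t ∈ Ioo (-r) r) :
    conormal M (P (0, t)) = cn (d1 P (0, t)) (d2 P (0, t)) := by
  have hex : ∃ η, IsOuterConormal M (P (0, t)) η := ⟨_, hb.isOuterConormal_cn ht⟩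
  rw [conormal, dif_pos hex]
  exact hb.unique_outerConormal ht hex.choose_spec

/-- the conormal is continuous on the part of the boundary in a boundary box -/
theorem BdBox.continuousOn_conormal {M B N : Set E} {P : ℝ × ℝ → E} {Ω : Set (ℝ × ℝ)} {r : ℝ}
    {f : E → ℝ} (hb : BdBox M B N P Ω r f) : ContinuousOn (conormal M) (B ∩ N) := by
  -- the closed edge and its parametrisation
  set K : Set (ℝ × ℝ) := {(0 : ℝ)} ×ˢ Icc (-r) r with hK
  have hKc : IsCompact K := isCompact_singleton.prod isCompact_Icc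
  have hKΩ : K ⊆ Ω := by
    rintro ⟨s, t⟩ ⟨hs, ht⟩
    simp only [mem_singleton_iff] at hs
    subst hs
    exact hb.sub (hb.mem_box ht)
  have : CompactSpace K := isCompact_iff_compactSpace.1 hKc
  have hemb : IsClosedEmbedding (K.domRestrict P) :=
    ((hb.smooth.continuousOn.mono hKΩ).domRestrict).isClosedEmbedding
      (injOn_iff_injective.1 (hb.inj.mono hKΩ))
  -- the continuous field along the edge
  have hd : ContinuousOn (fderiv ℝ P) Ω := hb.smooth.continuousOn_fderiv_of_isOpen hb.isOpenΩ (by simp)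
  have hd1 : ContinuousOn (d1 P) Ω := hd.clm_apply continuousOn_const
  have hd2 : ContinuousOn (d2 P) Ω := hd.clm_apply continuousOn_const
  have hcn : ContinuousOn (fun k => cn (d1 P k) (d2 P k)) Ω := by
    have hj : ContinuousOn (fun k => jac (d1 P k) (d2 P k)) Ω :=
      continuous_jac.comp_continuousOn (hd1.prodMk hd2)
    unfold cn
    refine ContinuousOn.neg (ContinuousOn.smul (ContinuousOn.inv₀ (hd2.norm.mul hj) ?_) ?_)
    · intro k hk
      have hli := linearIndependent_pair (hb.imm _ hk)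
      exact (mul_pos (norm_pos_iff.2 (ne_zero_right hli)) (jac_pos hli)).ne'
    · exact ((hd2.norm.pow 2).smul hd1).sub ((hd1.inner hd2).smul hd2)
  -- continuity on the image
  intro x hx
  rw [hb.B_eq] at hx ⊢
  obtain ⟨⟨s, t⟩, ⟨hs, ht⟩, rfl⟩ := hx
  simp only [mem_singleton_iff] at hs
  subst hs
  have ht' : t ∈ Icc (-r) r := Ioo_subset_Icc_self ht
  set K' : Set K := {k | k.1 ∈ ({(0 : ℝ)} ×ˢ Ioo (-r) r : Set (ℝ × ℝ))} with hK'
  have himg : P '' ({(0 : ℝ)} ×ˢ Ioo (-r) r) = K.domRestrict P '' K' := by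
    ext y
    constructor
    · rintro ⟨⟨s, τ⟩, ⟨hs, hτ⟩, rfl⟩
      exact ⟨⟨(s, τ), ⟨hs, Ioo_subset_Icc_self hτ⟩⟩, ⟨hs, hτ⟩, rfl⟩
    · rintro ⟨⟨k, hk⟩, hk', rfl⟩
      exact ⟨k, hk', rfl⟩
  set k₀ : K := ⟨(0, t), ⟨rfl, ht'⟩⟩ with hk₀
  rw [himg]
  have hPk : P (0, t) = K.domRestrict P k₀ := rfl
  rw [hPk, ContinuousWithinAt, ← hemb.isInducing.map_nhdsWithin_eq, tendsto_map'_iff]
  have hval : ∀ k ∈ K', conormal M (K.domRestrict P k) = cn (d1 P k.1) (d2 P k.1) := by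
    rintro ⟨⟨s, τ⟩, hk⟩ ⟨hs, hτ⟩
    simp only [mem_singleton_iff] at hs
    subst hs
    exact hb.conormal_eq hτ
  have hmem : k₀ ∈ K' := ⟨rfl, ht⟩
  rw [hval k₀ hmem]
  have h1 : Tendsto (fun k : K => cn (d1 P k.1) (d2 P k.1)) (𝓝[K'] k₀)
      (𝓝 (cn (d1 P k₀.1) (d2 P k₀.1))) := by
    have h2 : ContinuousAt (fun k => cn (d1 P k) (d2 P k)) k₀.1 :=
      hcn.continuousAt (hb.isOpenΩ.mem_nhds (hKΩ k₀.2))
    exact ((ContinuousAt.comp (f := fun k : K => k.1) h2 continuous_subtype_val.continuousAt).tendsto).mono_left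
      nhdsWithin_le_nhds
  refine h1.congr' ?_
  filter_upwards [self_mem_nhdsWithin] with k hk
  exact (hval k hk).symm

end Pool.Agent.Helper74.Iso3
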