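import Mathlib
import Pool.Agent.Helper74.Iso3.Defs3

/-!
# Module M7 of `MP_41af65_gt`: mollification

Stationarity for smooth vector fields implies stationarity for `C¹` vector fields.
-/

namespace Pool.Agent.Helper74.Iso3

open Module InnerProductSpace MeasureTheory Set Filter Topology
open Pool.Agent.Helper74.Iso Pool.Agent.Helper74.Iso2
open scoped ContDiff ENNReal Convolution

variable {E : Type*} [NormedAddCommGroup E] [InnerProductSpace ℝ E] [FiniteDimensional ℝ E]

/-- Smooth approximations of a compactly supported `C¹` vector field. -/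
lemma exists_smooth_approx {Y : E → E} (hY : ContDiff ℝ 1 Y) (hc : HasCompactSupport Y) :
    ∃ (Z : ℕ → E → E) (C : ℝ), (∀ n, ContDiff ℝ ∞ (Z n)) ∧
      (∀ n : ℕ, tsupport (Z n) ⊆ Metric.cthickening (1 / ((n : ℝ) + 1)) (tsupport Y)) ∧
      (∀ n x, ‖fderiv ℝ (Z n) x‖ ≤ C) ∧
      ∀ x, Tendsto (fun n => fderiv ℝ (Z n) x) atTop (𝓝 (fderiv ℝ Y x)) := by
  borelize E
  have hpos : ∀ n : ℕ, (0 : ℝ) < 1 / ((n : ℝ) + 1) := fun n => by positivity
  set φ : ℕ → ContDiffBump (0 : E) := fun n =>
    ⟨1 / ((n : ℝ) + 1) / 2, 1 / ((n : ℝ) + 1), half_pos (hpos n), half_lt_self (hpos n)⟩ with hφ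
  have hdc : Continuous (fderiv ℝ Y) := hY.continuous_fderiv one_ne_zero
  obtain ⟨C, hC⟩ : ∃ C, ∀ x, ‖fderiv ℝ Y x‖ ≤ C := by
    obtain ⟨C, hC⟩ := (hc.fderiv ℝ).exists_bound_of_continuous hdc
    exact ⟨C, hC⟩
  have hprec : (ContinuousLinearMap.lsmul ℝ ℝ : ℝ →L[ℝ] E →L[ℝ] E).precompR E =
      (ContinuousLinearMap.lsmul ℝ ℝ : ℝ →L[ℝ] (E →L[ℝ] E) →L[ℝ] (E →L[ℝ] E)) := by
    ext; simp
  have hder : ∀ n x, fderiv ℝ ((φ n).normed (volume : Measure E) ⋆[ContinuousLinearMap.lsmul ℝ ℝ, volume] Y) x =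
      ((φ n).normed (volume : Measure E) ⋆[ContinuousLinearMap.lsmul ℝ ℝ, volume] fderiv ℝ Y) x := by
    intro n x
    have h := hc.hasFDerivAt_convolution_right (ContinuousLinearMap.lsmul ℝ ℝ : ℝ →L[ℝ] E →L[ℝ] E)
      (f := (φ n).normed (volume : Measure E)) (μ := volume)
      ((φ n).continuous_normed.locallyIntegrable) hY x
    rw [h.fderiv, hprec]
  refine ⟨fun n => (φ n).normed (volume : Measure E) ⋆[ContinuousLinearMap.lsmul ℝ ℝ, volume] Y, 3 * C, fun n => ?_,
    fun n => ?_, fun n x => ?_, fun x => ?_⟩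
  · exact (φ n).hasCompactSupport_normed.contDiff_convolution_left _ (φ n).contDiff_normed
      hY.continuous.locallyIntegrable
  · refine closure_minimal ?_ Metric.isClosed_cthickening
    refine (support_convolution_subset _).trans ?_
    rw [(φ n).support_normed_eq]
    rintro _ ⟨a, ha, b, hb, rfl⟩
    refine Metric.mem_cthickening_of_dist_le _ b _ _ (subset_tsupport _ hb) ?_
    have : dist (a + b) b = ‖a‖ := by simp [dist_eq_norm]
    rw [this]
    exact (mem_ball_zero_iff.1 ha).le
  · rw [hder]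
    have h1 : dist (((φ n).normed (volume : Measure E) ⋆[ContinuousLinearMap.lsmul ℝ ℝ, volume] fderiv ℝ Y) x)
        (fderiv ℝ Y x) ≤ 2 * C := by
      refine (φ n).dist_normed_convolution_le hdc.aestronglyMeasurable fun y _ => ?_
      calc dist (fderiv ℝ Y y) (fderiv ℝ Y x) ≤ ‖fderiv ℝ Y y‖ + ‖fderiv ℝ Y x‖ := by
            rw [dist_eq_norm]; exact norm_sub_le _ _
        _ ≤ 2 * C := by linarith [hC y, hC x]
    rw [dist_eq_norm] at h1
    have h2 := norm_le_norm_add_norm_sub' (((φ n).normed (volume : Measure E) ⋆[ContinuousLinearMap.lsmul ℝ ℝ, volume] fderiv ℝ Y) x)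
        (fderiv ℝ Y x)
    linarith [hC x]
  · simp_rw [hder]
    refine ContDiffBump.convolution_tendsto_right_of_continuous ?_ hdc x
    exact tendsto_one_div_add_atTop_nhds_zero_nat

/-- The divergence along a plane as a continuous function of the projection and the derivative. -/
lemma exists_tdiv_eq (E : Type*) [NormedAddCommGroup E] [InnerProductSpace ℝ E]
    [FiniteDimensional ℝ E] : ∃ tr : (E →L[ℝ] E) →L[ℝ] ℝ, ∀ (T : Submodule ℝ E) (A : E →L[ℝ] E),
      tdiv T A = tr (T.starProjection ∘L A) := by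
  refine ⟨LinearMap.toContinuousLinearMap
    ((LinearMap.trace ℝ E) ∘ₗ (ContinuousLinearMap.coeLM ℝ)), fun T A => ?_⟩
  simp [tdiv]

theorem isStationary1_of_isStationary [MeasurableSpace E] [BorelSpace E] {M B : Set E}
    (hM : IsCompact M) (hB : IsClosed B) (hfin : μHE[2] M < ⊤)
    (hT : AEStronglyMeasurable (fun x => (tangentPlane M x).starProjection) (μHE[2].restrict M))
    (hs : IsStationary M B) : IsStationary1 M B := by
  intro X hX hXB
  -- cut off
  obtain ⟨R, hR⟩ := hM.isBounded.subset_ball (0 : E)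
  set ζ : ContDiffBump (0 : E) := ⟨|R| + 1, |R| + 2, by positivity, by linarith⟩ with hζ
  set Y : E → E := fun x => ζ x • X x with hYdef
  have hY : ContDiff ℝ 1 Y := ζ.contDiff.smul hX
  have hYc : HasCompactSupport Y := ζ.hasCompactSupport.smul_right
  have hYX : ∀ x ∈ M, fderiv ℝ Y x = fderiv ℝ X x := by
    intro x hx
    have hx' : x ∈ Metric.ball (0 : E) (|R| + 1) := by
      have := hR hx
      rw [mem_ball_zero_iff] at this ⊢
      linarith [le_abs_self R]
    refine Filter.EventuallyEq.fderiv_eq ?_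
    filter_upwards [Metric.isOpen_ball.mem_nhds hx'] with y hy
    have : ζ y = 1 := ζ.one_of_mem_closedBall (Metric.ball_subset_closedBall hy)
    simp [hYdef, this]
  have hYsupp : tsupport Y ⊆ tsupport X := by
    refine closure_mono ?_
    intro x hx
    simp only [Function.mem_support, hYdef] at hx ⊢
    exact fun h => hx (by rw [h, smul_zero])
  have hYB : Disjoint (tsupport Y) B := hXB.mono_left hYsupp
  obtain ⟨Z, C, hZ, hZs, hZC, hZt⟩ := exists_smooth_approx hY hYc
  obtain ⟨δ, hδ, hdis⟩ := hYB.exists_cthickenings hYc hB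
  obtain ⟨tr, htr⟩ := exists_tdiv_eq E
  have hM' : MeasurableSet M := hM.measurableSet
  have hlim : Tendsto (fun n => ∫ x in M, tdiv (tangentPlane M x) (fderiv ℝ (Z n) x) ∂μHE[2]) atTop
      (𝓝 (∫ x in M, tdiv (tangentPlane M x) (fderiv ℝ Y x) ∂μHE[2])) := by
    refine tendsto_integral_of_dominated_convergence (fun _ => ‖tr‖ * C) (fun n => ?_) ?_
      (fun n => ?_) ?_
    · simp_rw [htr]
      refine tr.continuous.comp_aestronglyMeasurable ?_
      have hc : Continuous fun p : (E →L[ℝ] E) × (E →L[ℝ] E) => p.1 ∘L p.2 := by fun_prop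
      exact hc.comp_aestronglyMeasurable (hT.prodMk
        (((hZ n).continuous_fderiv (by simp)).aestronglyMeasurable))
    · refine integrable_const_iff.2 (Or.inr ?_)
      exact ⟨by simpa using hfin⟩
    · refine Eventually.of_forall fun x => ?_
      rw [htr]
      calc ‖tr ((tangentPlane M x).starProjection ∘L fderiv ℝ (Z n) x)‖
          ≤ ‖tr‖ * ‖(tangentPlane M x).starProjection ∘L fderiv ℝ (Z n) x‖ := tr.le_opNorm _
        _ ≤ ‖tr‖ * (‖(tangentPlane M x).starProjection‖ * ‖fderiv ℝ (Z n) x‖) := by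
            gcongr; exact ContinuousLinearMap.opNorm_comp_le _ _
        _ ≤ ‖tr‖ * (1 * C) := by
            gcongr
            · exact Submodule.starProjection_norm_le _
            · exact hZC n x
        _ = ‖tr‖ * C := by ring
    · refine Eventually.of_forall fun x => ?_
      simp_rw [htr]
      have hc : Continuous fun A : E →L[ℝ] E => tr ((tangentPlane M x).starProjection ∘L A) := by
        fun_prop
      exact (hc.tendsto _).comp (hZt x)
  have hzero : ∀ᶠ n in atTop,
      ∫ x in M, tdiv (tangentPlane M x) (fderiv ℝ (Z n) x) ∂μHE[2] = 0 := by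
    have h1 : ∀ᶠ n : ℕ in atTop, 1 / ((n : ℝ) + 1) < δ :=
      (tendsto_order.1 tendsto_one_div_add_atTop_nhds_zero_nat).2 δ hδ
    filter_upwards [h1] with n hn
    refine hs (Z n) (hZ n) ?_
    refine hdis.mono ((hZs n).trans (Metric.cthickening_mono hn.le _)) ?_
    exact Metric.self_subset_cthickening _
  have h0 : ∫ x in M, tdiv (tangentPlane M x) (fderiv ℝ Y x) ∂μHE[2] = 0 := by
    refine tendsto_nhds_unique hlim ?_
    exact (tendsto_congr' hzero).2 tendsto_const_nhds
  rw [← h0]
  refine setIntegral_congr_fun hM' fun x hx => ?_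
  simp only [hYX x hx]

end Pool.Agent.Helper74.Iso3
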